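import Pool.Agent.H121.SH.Iface
import Pool.Agent.H333.SH.OneCore

/-! SH-ONE (one site moments). -/

set_option autoImplicit false

open scoped ENNReal
open MeasureTheory Set

namespace Pool.Agent.H333.SH

theorem one : Pool.Agent.H121.SH.S_one := by
  intro D lam h hD hl hh hh1 μ _ hμ β
  have hl0 : 0 < lam := by linarith
  refine ⟨?_, ?_, ?_, ?_⟩
  · refine (mom hD hl (by linarith) (by linarith) μ hμ β (s := 1 - h)).trans (le_of_eq ?_)
    unfold Pool.Agent.H121.SH.cC
    congr 1
    rw [show -(1 - h) = h + (-1) by ring, show h - 1 = h + (-1) by ring,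
      show 1 - (1 - h) = h by ring, Real.rpow_add hl0, Real.rpow_neg_one]
    field_simp
  · exact trunc hD hl hh hh1 μ hμ β
  · refine (measure_mono ?_).trans (small hD hl μ hμ β)
    intro v hv
    have hv' : ‖((lam * v : ℝ) : ℂ) - β‖ ≤ 1 / lam := hv
    have h1 := (lower hl β v).trans hv'
    change |v - β.re / lam| ≤ 1 / lam ^ 2
    rw [le_div_iff₀ (by positivity)]
    have h2 : lam * |v - β.re / lam| * lam ≤ 1 / lam * lam :=
      mul_le_mul_of_nonneg_right h1 hl0.le
    have h3 : 1 / lam * lam = 1 := by field_simp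
    rw [h3] at h2
    calc |v - β.re / lam| * lam ^ 2 = lam * |v - β.re / lam| * lam := by ring
      _ ≤ 1 := h2
  · refine (mom hD hl (by linarith) (by linarith) μ hμ β (s := (1 - h) / 2)).trans ?_
    refine ENNReal.ofReal_le_ofReal ?_
    rw [mul_comm]
    refine mul_le_mul_of_nonneg_right ?_ (by positivity)
    have h1 : 1 / 2 ≤ 1 - (1 - h) / 2 := by linarith
    have h2 : 2 * D / (1 - (1 - h) / 2) ≤ 4 * D := by
      rw [div_le_iff₀ (by linarith)]
      nlinarith
    linarith

end Pool.Agent.H333.SH
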